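import Pool.Agent.Lib.MP_95ac01_nt.H90.Main
import Pool.Agent.Lib.MP_95ac01_nt.H10.Bad1
import Pool.Agent.Lib.MP_95ac01_nt.H10.Bad2
import Pool.Agent.Lib.MP_95ac01_nt.H21.Bp
import Pool.Agent.Lib.MP_95ac01_nt.H21.Bp24
import Pool.Agent.Lib.MP_95ac01_nt.H21.Crt
import Pool.Agent.Lib.MP_95ac01_nt.H21.Div
import Pool.Agent.Lib.MP_95ac01_nt.H22.Cov
import Pool.Agent.Lib.MP_95ac01_nt.H22.Upper1
import Pool.Agent.Lib.MP_95ac01_nt.H22.Main2
import Pool.Agent.Lib.MP_95ac01_nt.H27.BigP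
import Pool.Agent.Lib.MP_95ac01_nt.H27.SolLow
import Pool.Agent.Lib.MP_95ac01_nt.H37.Hensel
import Pool.Agent.Lib.MP_95ac01_nt.H37.Span2
import Pool.Agent.Lib.MP_95ac01_nt.H5.Lx
import Pool.Agent.Lib.MP_95ac01_nt.H5.Lxsum
import Pool.Agent.Lib.MP_95ac01_nt.H5.Pairsum
import Pool.Agent.Lib.MP_95ac01_nt.H64.Var
import Pool.Agent.Lib.MP_95ac01_nt.H72.Bad
import Pool.Agent.Lib.MP_95ac01_nt.H72.Bad3
import Pool.Agent.Lib.MP_95ac01_nt.H72.Bad4
import Pool.Agent.Lib.MP_95ac01_nt.H72.Lin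
import Pool.Agent.Lib.MP_95ac01_nt.H72.RegC
import Pool.Agent.Lib.MP_95ac01_nt.H72.Span1
import Pool.Agent.Lib.MP_95ac01_nt.H77.MLow
import Pool.Agent.Lib.MP_95ac01_nt.H77.Region
import Pool.Agent.Lib.MP_95ac01_nt.H78.Minor
import Pool.Agent.Lib.MP_95ac01_nt.H78.N1low
import Pool.Agent.Lib.MP_95ac01_nt.H78.Rega
import Pool.Agent.Lib.MP_95ac01_nt.H80.Pos
import Pool.Agent.Lib.MP_95ac01_nt.H80.SecMom
import Pool.Agent.Lib.MP_95ac01_nt.H81.Fibre
import Pool.Agent.Lib.MP_95ac01_nt.H87.RealZero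
import Pool.Agent.Lib.MP_95ac01_nt.H87.Trans
import Pool.Agent.Lib.MP_95ac01_nt.H9.RealExc
import Pool.Agent.Lib.MP_95ac01_nt.H91.Asy
import Pool.Agent.Lib.MP_95ac01_nt.H91.Cheb
import Pool.Agent.Lib.MP_95ac01_nt.H91.PadApprox
import Pool.Agent.Lib.MP_95ac01_nt.H91.PadExc
import Pool.Agent.Lib.MP_95ac01_nt.H97.Reg
import Pool.Agent.Lib.MP_95ac01_nt.H97.Upper2

/-!
# MP_95ac01_nt (S17823): assembly
-/

set_option autoImplicit false

namespace H90

open Cub

theorem span2A : Span2Statement := Cub.H37.span2 H72.lin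
theorem span1A : Span1Statement := H72.span1 H72.lin
theorem cov2A : Cov2Statement := Cub.H22.cov2 span2A
theorem cov1A : Cov1Statement := Cub.H22.cov1 span1A
theorem reg2A : Reg2Statement := Cub.H22.reg2 H97.reg span2A
theorem upper2A : Upper2Statement := H97.upper2 cov2A Cub.H78.minor Cub.H21.div
theorem upper1A : Upper1Statement := Cub.H22.upper1 cov1A
theorem main2A : Main2Statement := Cub.H22.main2 cov2A reg2A Cub.H78.minor Cub.H21.div upper2A
theorem pairSumA : PairSumStatement := Cub.H5.pairsum (Cub.H5.lxsum (Cub.H5.lx H72.lin))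
theorem varA : VarStatement := Cub.H64.var upper1A upper2A main2A pairSumA
theorem secMomA : SecMomStatement := H80.secmom upper1A upper2A pairSumA
theorem badA : BadStatement := H72.bad (Cub.H10.bad2 Cub.H10.bad1) H72.bad3 H72.bad4
theorem badAsyA : BadAsyStatement := H72.badasy badA Cub.H91.asy
theorem regionA : RegionStatement :=
  Pool.Agent.Lib.MP_95ac01_nt.H77.region Cub.H78.rega H72.regc
theorem posA : PosStatement := H80.pos secMomA Cub.H78.n1low regionA badAsyA Cub.H91.asy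
theorem realExcA : RealExcStatement :=
  H9.realexc Pool.Agent.Lib.MP_95ac01_nt.H87.realzero Cub.H81.fibre
theorem padExcA : PadExcStatement := Cub.H91.padexc Cub.H91.padapprox Cub.H81.fibre
theorem solLowA : SolLowStatement :=
  Pool.Agent.Lib.MP_95ac01_nt.H27.sollow Cub.H37.hensel Cub.H21.crt
theorem bigPA : BigPStatement :=
  Pool.Agent.Lib.MP_95ac01_nt.H27.bigp Cub.H21.bp1 Cub.H21.bp2 Cub.H21.bp3 Cub.H21.bp4
theorem mLowA : MLowStatement :=
  Pool.Agent.Lib.MP_95ac01_nt.H77.mlow solLowA regionA badAsyA Cub.H91.asy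
theorem chebA : ChebStatement := Cub.H91.cheb varA Cub.H91.asy Cub.H91.divq
theorem mainA : MainStatement := main chebA mLowA realExcA padExcA bigPA posA

end H90
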