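import Pool.Agent.Lib.MP_95ac01_nt.Iface

/-!
# MP_95ac01_nt (S17823): module MAIN
-/

set_option autoImplicit false

namespace H90

open Finset Filter Cub

theorem ratZ_of_zero {c : Mon → ℤ} {x : Fin 4 → ℤ} (hx : x ≠ 0) (h : ev c x = 0) : RatZ c := by
  refine ⟨cx ℚ x, ?_, ?_⟩
  · intro h0
    apply hx
    funext i
    have := congrFun h0 i
    simpa [cx] using this
  · rw [ev_cast, h]; simp

theorem ratZ_imp_locZ {c : Mon → ℤ} (h : RatZ c) : LocZ c := by
  obtain ⟨x, hx, hx0⟩ := h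
  have key : ∀ (K : Type) [Field K] [CharZero K], ∃ y : Fin 4 → K, y ≠ 0 ∧ ev (cc K c) y = 0 := by
    intro K _ _
    refine ⟨fun i => (x i : K), ?_, ?_⟩
    · intro h0
      apply hx
      funext i
      have := congrFun h0 i
      simpa using this
    · have := ev_map (Rat.castHom K) (cc ℚ c) x
      rw [hx0, map_zero] at this
      rw [← this]
      unfold cc
      simp
  refine ⟨key ℝ, fun p _ => key ℚ_[p]⟩

theorem ratZ_of_Nf {A B : ℕ} {c : Mon → ℤ} (h : Nf A B c ≠ 0) : RatZ c := by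
  unfold Nf at h
  obtain ⟨x, hx⟩ := Finset.card_pos.1 (Nat.pos_of_ne_zero h)
  rw [Finset.mem_filter, mem_G, mem_shell] at hx
  exact ratZ_of_zero (prim_ne_zero hx.1.1.2.1) hx.2

theorem qq_pos (a b K : ℕ) : 1 ≤ qq a b K := by
  unfold qq
  refine Nat.one_le_iff_ne_zero.2 (Finset.prod_ne_zero_iff.2 fun p hp => ?_)
  have := (Finset.mem_filter.1 hp).2
  exact pow_ne_zero _ this.ne_zero

theorem prime_dvd_qq {a b K p : ℕ} (hp : p.Prime) (h : p ∣ qq a b K) : a < p := by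
  unfold qq at h
  obtain ⟨q, hq, hpq⟩ := (hp.prime.dvd_finsetProd_iff _).1 h
  rw [Finset.mem_filter, Finset.mem_Ioc] at hq
  have := (Nat.prime_dvd_prime_iff_eq hp hq.2).1 (hp.dvd_of_dvd_pow hpq)
  subst this
  exact hq.1.1

theorem count_four {α : Type*} [DecidableEq α] {S s1 s2 s3 s4 : Finset α} {η P : ℝ}
    (h : S ⊆ s1 ∪ (s2 ∪ (s3 ∪ s4))) (h1 : (s1.card : ℝ) ≤ η * P) (h2 : (s2.card : ℝ) ≤ η * P)
    (h3 : (s3.card : ℝ) ≤ η * P) (h4 : (s4.card : ℝ) ≤ η * P) : (S.card : ℝ) ≤ 4 * η * P := by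
  have e1 := Finset.card_le_card h
  have a1 := Finset.card_union_le s1 (s2 ∪ (s3 ∪ s4))
  have a2 := Finset.card_union_le s2 (s3 ∪ s4)
  have a3 := Finset.card_union_le s3 s4
  have e2 : S.card ≤ s1.card + (s2.card + (s3.card + s4.card)) := by omega
  have e3 : (S.card : ℝ) ≤ s1.card + (s2.card + (s3.card + s4.card)) := by exact_mod_cast e2
  linarith

theorem main (hcheb : ChebStatement) (hml : MLowStatement) (hre : RealExcStatement)
    (hpe : PadExcStatement) (hbig : BigPStatement) (hpos : PosStatement) : MainStatement := by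
  classical
  obtain ⟨c, hc, hcH⟩ := hpos
  obtain ⟨CT, hCT, hcheb⟩ := hcheb
  obtain ⟨CR, hCR, hre⟩ := hre
  obtain ⟨CB, hbig⟩ := hbig
  -- the main estimate
  have key : ∀ η : ℝ, 0 < η → ∀ᶠ H : ℕ in atTop,
      (((locSet H) \ (ratSet H)).card : ℝ) ≤ 4 * η * (2 * (H : ℝ) + 1) ^ 20 := by
    intro η hη
    -- w₁
    obtain ⟨w₁, hw₁⟩ : ∃ w₁ : ℕ, 1 ≤ w₁ ∧ (CB : ℝ) ≤ η * w₁ := by
      obtain ⟨n, hn⟩ := exists_nat_ge ((CB : ℝ) / η)
      refine ⟨n + 1, by omega, ?_⟩
      rw [div_le_iff₀ hη] at hn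
      push_cast
      nlinarith
    -- κ
    obtain ⟨κ, hκ, hκ1, hκC⟩ : ∃ κ : ℝ, 0 < κ ∧ κ ≤ 1 ∧ CR * κ ≤ η := by
      refine ⟨min 1 (η / CR), lt_min one_pos (by positivity), min_le_left _ _, ?_⟩
      calc CR * min 1 (η / CR) ≤ CR * (η / CR) := by
            gcongr; exact min_le_right _ _
        _ = η := by field_simp
    obtain ⟨e, he⟩ := hpe η hη w₁
    obtain ⟨c₀, hc₀, hml⟩ := hml κ hκ w₁ e
    -- T
    obtain ⟨T, hT1, hTC, hT⟩ : ∃ T : ℕ, 1 ≤ T ∧ CT ≤ T ∧ CT / (T * c₀ ^ 2) ≤ η := by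
      obtain ⟨n, hn⟩ := exists_nat_ge (CT / (η * c₀ ^ 2) + CT)
      have h0 : 0 ≤ CT / (η * c₀ ^ 2) := by positivity
      refine ⟨n + 1, by omega, ?_, ?_⟩
      · push_cast; linarith
      · push_cast
        have h1 : CT / (η * c₀ ^ 2) ≤ (n : ℝ) + 1 := by linarith
        rw [div_le_iff₀ (by positivity)] at h1
        rw [div_le_iff₀ (by positivity)]
        nlinarith
    have hTpos : (0 : ℝ) < T := by exact_mod_cast hT1
    set w : ℕ := max w₁ (2 * T) with hw
    set K : ℕ := max (2 * e + 1) w with hK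
    have hδ : (0 : ℝ) < 1 / (T : ℝ) ^ 2 := by positivity
    have hδ1 : 1 / (T : ℝ) ^ 2 ≤ 1 := by
      rw [div_le_one (by positivity)]
      have : (1 : ℝ) ≤ T := by exact_mod_cast hT1
      nlinarith
    have hml' := hml (1 / (T : ℝ) ^ 2) hδ hδ1 w K (le_max_left _ _) (le_max_left _ _)
    have hcheb' := hcheb T c₀ hT1 hTC hc₀ w K (le_max_right _ _) (le_max_right _ _)
    have hre' := hre κ hκ hκ1
    filter_upwards [hml', hcheb', hre', he, eventually_ge_atTop (qq w₁ w K)] with H h1 h2 h3 h4 h5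
    have h6 := hbig w₁ (qq w₁ w K) H hw₁.1 (qq_pos _ _ _) (fun p hp hd => prime_dvd_qq hp hd) h5
    have hw₁pos : (0 : ℝ) < w₁ := by exact_mod_cast hw₁.1
    have h7 : (((box H).filter fun c => ¬ SC (qq w₁ w K) c).card : ℝ) ≤
        η * (2 * (H : ℝ) + 1) ^ 20 := by
      have h6' : (((box H).filter fun c => ¬ SC (qq w₁ w K) c).card : ℝ) * w₁ ≤
          CB * (2 * (H : ℝ) + 1) ^ 20 := by
        have := (Nat.cast_le (α := ℝ)).2 h6
        push_cast at this
        exact this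
      have h8 : (CB : ℝ) * (2 * (H : ℝ) + 1) ^ 20 ≤ η * w₁ * (2 * (H : ℝ) + 1) ^ 20 :=
        mul_le_mul_of_nonneg_right hw₁.2 (pow_nonneg (by linarith [Nat.cast_nonneg (α := ℝ) H]) 20)
      have h9 : (((box H).filter fun c => ¬ SC (qq w₁ w K) c).card : ℝ) * w₁ ≤
          (η * (2 * (H : ℝ) + 1) ^ 20) * w₁ := by
        calc _ ≤ _ := h6'
          _ ≤ _ := h8
          _ = _ := by ring
      exact le_of_mul_le_mul_right h9 hw₁pos
    have hsub : (locSet H) \ (ratSet H) ⊆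
        ((box H).filter fun c => ¬ RC κ H c) ∪
        (((box H).filter fun c => LocZ c ∧ ¬ ∀ p : ℕ, p.Prime → p ≤ w₁ → PC p e c) ∪
        (((box H).filter fun c => ¬ SC (qq w₁ w K) c) ∪
        ((box H).filter fun c => Nf (Af H) (Bf H) c = 0 ∧ c₀ * Bf H / H ≤
          Mf (Af H) (Bf H) (qq 0 w K) ⌊(1 / (T : ℝ) ^ 2) * H * (Bf H : ℝ) ^ 3⌋₊ c))) := by
      intro f hf
      rw [Finset.mem_sdiff] at hf
      obtain ⟨hf1, hf2⟩ := hf
      unfold locSet at hf1
      unfold ratSet at hf2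
      rw [Finset.mem_filter] at hf1 hf2
      obtain ⟨hfb, hfl⟩ := hf1
      have hfr : ¬ RatZ f := fun h => hf2 ⟨hfb, h⟩
      have hN : Nf (Af H) (Bf H) f = 0 := by
        by_contra h
        exact hfr (ratZ_of_Nf h)
      simp only [Finset.mem_union, Finset.mem_filter]
      by_cases hA : RC κ H f
      · by_cases hB : ∀ p : ℕ, p.Prime → p ≤ w₁ → PC p e f
        · by_cases hC : SC (qq w₁ w K) f
          · right; right; right
            exact ⟨hfb, hN, h1 f hfb hA hB hC⟩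
          · right; right; left
            exact ⟨hfb, hC⟩
        · right; left
          exact ⟨hfb, hfl, hB⟩
      · left; exact ⟨hfb, hA⟩
    exact count_four hsub (h3.trans (mul_le_mul_of_nonneg_right hκC (pow_nonneg (by linarith [Nat.cast_nonneg (α := ℝ) H]) 20)))
      h4 h7 (h2.trans (mul_le_mul_of_nonneg_right hT (pow_nonneg (by linarith [Nat.cast_nonneg (α := ℝ) H]) 20)))
  -- conclusion
  unfold MainStatement
  rw [Metric.tendsto_atTop]
  intro ε hε
  have hk := key (c * ε / 8) (by positivity)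
  obtain ⟨N, hN⟩ := eventually_atTop.1 (hk.and hcH)
  refine ⟨N, fun H hH => ?_⟩
  obtain ⟨h1, h2⟩ := hN H hH
  have hsub : ratSet H ⊆ locSet H := by
    intro f hf
    unfold ratSet at hf
    unfold locSet
    rw [Finset.mem_filter] at hf ⊢
    exact ⟨hf.1, ratZ_imp_locZ hf.2⟩
  have hcard : (((locSet H) \ (ratSet H)).card : ℝ) = (locSet H).card - (ratSet H).card := by
    rw [Finset.card_sdiff_of_subset hsub, Nat.cast_sub (Finset.card_le_card hsub)]
  have hP : (0 : ℝ) < (2 * (H : ℝ) + 1) ^ 20 := by positivity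
  have hle : ((ratSet H).card : ℝ) ≤ (locSet H).card := by exact_mod_cast Finset.card_le_card hsub
  have hrat : 0 < ((ratSet H).card : ℝ) := lt_of_lt_of_le (by positivity) h2
  have hloc : 0 < ((locSet H).card : ℝ) := lt_of_lt_of_le hrat hle
  rw [Real.dist_eq, abs_sub_comm]
  have h3 : (1 : ℝ) - (ratSet H).card / (locSet H).card =
      (((locSet H) \ (ratSet H)).card : ℝ) / (locSet H).card := by
    rw [hcard]; field_simp
  rw [h3, abs_of_nonneg (by positivity), div_lt_iff₀ hloc]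
  calc (((locSet H) \ (ratSet H)).card : ℝ) ≤ 4 * (c * ε / 8) * (2 * (H : ℝ) + 1) ^ 20 := h1
    _ = (ε / 2) * (c * (2 * (H : ℝ) + 1) ^ 20) := by ring
    _ ≤ (ε / 2) * (ratSet H).card := by gcongr
    _ ≤ (ε / 2) * (locSet H).card := by gcongr
    _ < ε * (locSet H).card := by nlinarith

end H90
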